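import Pool.Agent.Lib.MP_e52bc6_co.FX.Sub

/-! Graphs that are built over a tree have a large barrier. -/

open Finset

namespace Pool.Agent.Lib.MP_e52bc6_co

variable {V T : Type} [Fintype V] [DecidableEq T]

/-- `G` is built over the tree `R` -/
def Over (G : SimpleGraph V) {N : Type} (R : SimpleGraph N) (π : V → N) (c : N → Bool) : Prop :=
  R.IsTree ∧ (∀ x y, R.Adj x y → c x ≠ c y) ∧
    (∀ x, ((R.neighborSet x).ncard = 3 ∧ (π ⁻¹' {x}).ncard = 3) ∨
      ((R.neighborSet x).ncard = 1 ∧ (π ⁻¹' {x}).ncard = 9 ∧ c x = true)) ∧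
    (∀ u v, G.Adj u v → π u = π v ∨ R.Adj (π u) (π v)) ∧
    ∀ x y, R.Adj x y → ∃! p : V × V, G.Adj p.1 p.2 ∧ π p.1 = x ∧ π p.2 = y

theorem ncard_nb {N : Type} [Fintype N] (R : SimpleGraph N) [DecidableRel R.Adj] (x : N) :
    (R.neighborSet x).ncard = R.degree x := by
  rw [← SimpleGraph.card_neighborFinset_eq_degree, ← Set.ncard_coe_finset,
    SimpleGraph.coe_neighborFinset]

theorem bip_sum {N : Type} [Fintype N] (R : SimpleGraph N) [DecidableRel R.Adj] {c : N → Bool}
    (hc : ∀ x y, R.Adj x y → c x ≠ c y) (b : Bool) :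
    ∑ x ∈ univ.filter (fun x => c x = b), R.degree x = R.edgeFinset.card := by
  refine SimpleGraph.isBipartiteWith_sum_degrees_eq_card_edges
    (t := univ.filter fun x => c x ≠ b) ⟨?_, fun x y h => ?_⟩
  · rw [Set.disjoint_left]
    intro x h1 h2
    exact (mem_filter.1 h2).2 (mem_filter.1 h1).2
  · have := hc x y h
    simp only [coe_filter, mem_univ, true_and, Set.mem_ofPred_eq]
    revert this
    cases c x <;> cases c y <;> cases b <;> simp

theorem Str.fibre [Fintype T] (X : Str V T) {N : Type} [DecidableEq N] (ρ : T → N) (x : N) :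
    ((fun v => ρ (X.τ v)) ⁻¹' {x}).ncard = 3 * (univ.filter fun t => ρ t = x).card := by
  rw [← X.card_filter, ← Set.ncard_coe_finset]
  congr 1
  ext v
  simp

theorem Str.over_const (X : Str V T) {N : Type} {R : SimpleGraph N} {π : V → N} {c : N → Bool}
    (h : Over X.graph R π c) {u v : V} (huv : X.τ u = X.τ v) : π u = π v := by
  obtain ⟨-, h2, -, h4, h5⟩ := h
  by_contra hne
  have ha : X.graph.Adj u v := Or.inl ⟨fun e => hne (congrArg π e), huv⟩
  have hr := (h4 u v ha).resolve_left hne
  obtain ⟨w, h6, h7⟩ := X.common huv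
  rcases h4 u w h6 with e1 | e1
  · have := (h5 _ _ hr).unique (y₁ := (u, v)) (y₂ := (w, v)) ⟨ha, rfl, rfl⟩ ⟨h7.symm, e1.symm, rfl⟩
    exact h6.ne (congrArg Prod.fst this)
  · rcases h4 v w h7 with e2 | e2
    · have := (h5 _ _ hr).unique (y₁ := (u, v)) (y₂ := (u, w)) ⟨ha, rfl, rfl⟩ ⟨h6, rfl, e2.symm⟩
      exact h7.ne (congrArg Prod.snd this)
    · have k1 := h2 _ _ hr
      have k2 := h2 _ _ e1
      have k3 := h2 _ _ e2
      revert k1 k2 k3
      cases c (π u) <;> cases c (π v) <;> cases c (π w) <;> simp

theorem Str.tb_of_over [Fintype T] (X : Str V T) {N : Type} {R : SimpleGraph N} {π : V → N}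
    {c : N → Bool} (h : Over X.graph R π c) :
    ∃ s, Fintype.card T = 6 * s + 4 ∧ X.TB (s + 1) := by
  classical
  choose rep hrep using X.surj
  obtain ⟨ρ, hρ⟩ : ∃ ρ : T → N, π = fun v => ρ (X.τ v) :=
    ⟨fun t => π (rep t), funext fun v => X.over_const h (hrep _).symm⟩
  obtain ⟨h1, h2, h3, h4, -⟩ := h
  subst hρ
  have hsurj : Function.Surjective fun v => ρ (X.τ v) := fun x =>
    Set.nonempty_of_ncard_ne_zero (s := (fun v => ρ (X.τ v)) ⁻¹' {x}) (by
      rcases h3 x with h | h
      · rw [h.2]; decide
      · rw [h.2.1]; decide)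
  haveI : Finite N := Finite.of_surjective _ hsurj
  haveI : Fintype N := Fintype.ofFinite N
  obtain ⟨a, ha⟩ : ∃ a : N → ℕ, ∀ x, a x = (univ.filter fun t => ρ t = x).card := ⟨_, fun _ => rfl⟩
  have h3' : ∀ x, (R.degree x = 3 ∧ a x = 1) ∨ (R.degree x = 1 ∧ a x = 3 ∧ c x = true) :=
    fun x => by
      have := h3 x
      rw [X.fibre, ← ha, ncard_nb] at this
      exact this.imp (fun h => ⟨h.1, by omega⟩) fun h => ⟨h.1, by omega, h.2.2⟩
  have hsum : ∀ b, (univ.filter fun t => c (ρ t) = b).card =
      ∑ x ∈ univ.filter (fun x => c x = b), a x := fun b => by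
    rw [card_eq_sum_card_fiberwise (f := ρ) (t := univ.filter fun x => c x = b)
      (fun t ht => by simpa using ht)]
    refine sum_congr rfl fun x hx => ?_
    rw [ha]
    congr 1
    ext t
    simp only [mem_filter, mem_univ, true_and]
    exact ⟨fun h => h.2, fun h => ⟨h ▸ (mem_filter.1 hx).2, h⟩⟩
  have hf : ∀ x ∈ univ.filter (fun x => c x = false), R.degree x = 3 ∧ a x = 1 := fun x hx =>
    (h3' x).resolve_right fun h => by
      have := (mem_filter.1 hx).2
      rw [h.2.2] at this
      cases this
  have e1 := bip_sum R h2 false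
  have e2 := bip_sum R h2 true
  have e3 := hsum false
  have e4 := hsum true
  rw [sum_congr rfl fun x hx => (hf x hx).1, sum_const, smul_eq_mul] at e1
  rw [sum_congr rfl fun x hx => (hf x hx).2, sum_const, smul_eq_mul] at e3
  have e5 : ∑ x ∈ univ.filter (fun x => c x = true), (R.degree x + a x) =
      (univ.filter (fun x => c x = true)).card * 4 := by
    rw [← smul_eq_mul, ← sum_const]
    exact sum_congr rfl fun x _ => by rcases h3' x with h | h <;> omega
  rw [sum_add_distrib] at e5
  have e6 := h1.card_edgeFinset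
  have e7 : (univ.filter fun x => c x = true).card + (univ.filter fun x => c x = false).card =
      Fintype.card N := by
    rw [← card_univ, ← card_filter_add_card_filter_not (s := univ) (fun x => c x = true)]
    simp
  have e8 : (univ.filter fun t => c (ρ t) = true).card +
      (univ.filter fun t => c (ρ t) = false).card = Fintype.card T := by
    rw [← card_univ, ← card_filter_add_card_filter_not (s := univ) (fun t => c (ρ t) = true)]
    simp
  refine ⟨(univ.filter fun x => c x = false).card, by omega, {x // c x = true}, inferInstance,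
    inferInstance, fun t => if h : c (ρ t) = true then some ⟨ρ t, h⟩ else none,
    fun j => ?_, fun v i j k1 k2 => ?_, ?_⟩
  · have : (univ.filter fun t => (if h : c (ρ t) = true then some (⟨ρ t, h⟩ : {x // c x = true})
        else none) = some j) = univ.filter fun t => ρ t = j.1 := by
      refine filter_congr fun t _ => ?_
      split_ifs with h
      · rw [Option.some_inj, Subtype.ext_iff]
      · exact ⟨fun e => (by cases e), fun e => absurd (e ▸ j.2) h⟩
    rw [this, ← ha]
    rcases h3' j.1 with h | h
    · rw [h.2]; decide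
    · rw [h.2.1]; decide
  · simp only at k1 k2
    split_ifs at k1 k2 with c1 c2
    rw [← Option.some_injective _ k1, ← Option.some_injective _ k2]
    refine Subtype.ext ((h4 v (X.σ v) (Or.inr rfl)).resolve_right fun h => ?_)
    exact h2 _ _ h (c1.trans c2.symm)
  · have : (univ.filter fun t => (if h : c (ρ t) = true then some (⟨ρ t, h⟩ : {x // c x = true})
        else none) = none) = univ.filter fun t => c (ρ t) = false := by
      refine filter_congr fun t _ => ?_
      split_ifs with h <;> simp [h]
    rw [this, Fintype.card_subtype]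
    omega

end Pool.Agent.Lib.MP_e52bc6_co
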