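import Pool.Agent.Lib.MP_e52bc6_co.FX.Back

/-! A barrier of the largest possible excess forces the tree structure. -/

open Finset

namespace Pool.Agent.Lib.MP_e52bc6_co

variable {V T : Type} [Fintype V] [DecidableEq T]

theorem Str.loc4 (X : Str V T) (A : Finset T) (hodd : Odd A.card) :
    4 ≤ A.card + (univ.filter (fun v => X.τ v ∈ A ∧ X.τ (X.σ v) ∉ A)).card := by
  classical
  let I := univ.filter (fun v => X.τ v ∈ A ∧ X.τ (X.σ v) ∈ A)
  have hI : Even I.card := even_card_of_invol I X.σ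
    (by intro a ha; simp only [I, mem_filter, mem_univ, true_and, X.inv] at ha ⊢; tauto)
    (fun a _ => X.inv a) (fun a _ h => X.ne a (by rw [h]))
  have hsum : I.card + (univ.filter (fun v => X.τ v ∈ A ∧ X.τ (X.σ v) ∉ A)).card = 3 * A.card := by
    rw [← X.card_filter, ← card_union_of_disjoint]
    · congr 1; ext v; simp only [I, mem_filter, mem_union, mem_univ, true_and]; tauto
    · rw [disjoint_left]; intro v h1 h2
      simp only [I, mem_filter, mem_univ, true_and] at h1 h2; tauto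
  by_cases h : A.card = 1
  · have : I = ∅ := by
      rw [eq_empty_iff_forall_notMem]
      intro v hv
      simp only [I, mem_filter, mem_univ, true_and] at hv
      exact X.ne v (card_le_one.mp h.le _ hv.2 _ hv.1)
    rw [this] at hsum
    simp at hsum
    omega
  · obtain ⟨a, ha⟩ := hodd
    obtain ⟨b, hb⟩ := hI
    omega

/-- the quotient graph of a map that is constant on triangles -/
def Str.quo (X : Str V T) {N : Type} (ρ : T → N) : SimpleGraph N where
  Adj x y := x ≠ y ∧ ∃ v, ρ (X.τ v) = x ∧ ρ (X.τ (X.σ v)) = y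
  symm := ⟨by
    rintro x y ⟨h, v, h1, h2⟩
    exact ⟨h.symm, X.σ v, h2, by rw [X.inv]; exact h1⟩⟩
  loopless := ⟨fun x h => h.1 rfl⟩

theorem Str.quo_conn (X : Str V T) (hc : X.Conn) {N : Type} [Nonempty N] {ρ : T → N}
    (hρ : Function.Surjective ρ) : (X.quo ρ).Connected := by
  refine ⟨fun x y => ?_⟩
  obtain ⟨a, rfl⟩ := hρ x
  obtain ⟨b, rfl⟩ := hρ y
  refine hc (fun t => (X.quo ρ).Reachable (ρ a) (ρ t)) ?_ a b (SimpleGraph.Reachable.refl _)
  intro v hv
  by_cases e : ρ (X.τ v) = ρ (X.τ (X.σ v))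
  · rwa [← e]
  · exact hv.trans (SimpleGraph.Adj.reachable ⟨e, v, rfl, rfl⟩)

theorem Str.quo_degree [Fintype T] (X : Str V T) {N : Type} [Fintype N] [DecidableEq N] (ρ : T → N)
    [DecidableRel (X.quo ρ).Adj]
    (hu : ∀ u v, ρ (X.τ u) = ρ (X.τ v) → ρ (X.τ (X.σ u)) = ρ (X.τ (X.σ v)) →
      ρ (X.τ u) ≠ ρ (X.τ (X.σ u)) → u = v) (x : N) :
    (X.quo ρ).degree x = (univ.filter fun v => X.τ v ∈ univ.filter (fun t => ρ t = x) ∧
      X.τ (X.σ v) ∉ univ.filter (fun t => ρ t = x)).card := by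
  rw [← SimpleGraph.card_neighborFinset_eq_degree]
  symm
  refine card_bij (fun v _ => ρ (X.τ (X.σ v))) (fun v hv => ?_) (fun u hu' v hv h => ?_)
    fun y hy => ?_
  · simp only [mem_filter, mem_univ, true_and] at hv
    exact (SimpleGraph.mem_neighborFinset _ _ _).2 ⟨fun e => hv.2 e.symm, v, hv.1, rfl⟩
  · simp only [mem_filter, mem_univ, true_and] at hu' hv
    exact hu u v (hu'.1.trans hv.1.symm) h fun e => hu'.2 (e.symm.trans hu'.1)
  · obtain ⟨h1, v, h2, h3⟩ := (SimpleGraph.mem_neighborFinset _ _ _).1 hy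
    refine ⟨v, ?_, h3⟩
    simp only [mem_filter, mem_univ, true_and]
    exact ⟨h2, fun e => h1 (e.symm.trans h3)⟩

theorem Str.over_of_tb [Fintype T] (X : Str V T) (hc : X.Conn) {e : ℕ} (h : X.TB e)
    (he : 6 * e = Fintype.card T + 2) :
    ∃ (N : Type) (R : SimpleGraph N) (π : V → N) (c : N → Bool), Over X.graph R π c := by
  classical
  obtain ⟨ι, _, _, lab, hodd, hsep, hq⟩ := h
  have ha := X.count_a lab hsep
  have hb := X.count_b hc lab hsep
  rw [filter_true_of_mem fun j _ => hodd j, card_univ] at ha hb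
  obtain ⟨s, hs⟩ : ∃ s, s = (univ.filter fun t => lab t = none).card := ⟨_, rfl⟩
  rw [← hs] at ha hb hq
  have hq1 : Fintype.card ι = 2 * s + 1 := by omega
  have hq2 : 4 * Fintype.card ι = Fintype.card T + 2 * s := by omega
  obtain ⟨ρ, r1, r2⟩ : ∃ ρ : T → {t // lab t = none} ⊕ ι, (∀ t h, ρ t = Sum.inl ⟨t, h⟩) ∧
      ∀ t j, lab t = some j → ρ t = Sum.inr j := by
    refine ⟨fun t => if h : lab t = none then Sum.inl ⟨t, h⟩ else
      Sum.inr ((lab t).get (Option.ne_none_iff_isSome.1 h)), fun t h => dif_pos h,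
      fun t j h => ?_⟩
    simp [h]
  have rl : ∀ t x, ρ t = Sum.inl x ↔ t = x.1 := fun t x => by
    refine ⟨fun h => ?_, fun h => by rw [h, r1 x.1 x.2]⟩
    cases h' : lab t with
    | none => rw [r1 t h'] at h; exact congrArg Subtype.val (Sum.inl_injective h)
    | some j => rw [r2 t j h'] at h; cases h
  have rr : ∀ t j, ρ t = Sum.inr j ↔ lab t = some j := fun t j => by
    refine ⟨fun h => ?_, r2 t j⟩
    cases h' : lab t with
    | none => rw [r1 t h'] at h; cases h
    | some i => rw [r2 t i h'] at h; rw [Sum.inr_injective h]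
  have hsurj : Function.Surjective ρ := by
    rintro (x | j)
    · exact ⟨x.1, r1 x.1 x.2⟩
    · obtain ⟨t, ht⟩ := card_pos.1 (hodd j).pos
      exact ⟨t, r2 t j (mem_filter.1 ht).2⟩
  have hcN : Fintype.card ({t // lab t = none} ⊕ ι) = 3 * s + 1 := by
    rw [Fintype.card_sum, Fintype.card_subtype, ← hs]
    omega
  have hN : Nonempty ({t // lab t = none} ⊕ ι) := Fintype.card_pos_iff.1 (by omega)
  have hK := X.quo_conn hc hsurj
  have h1 := hK.card_vert_le_card_edgeSet_add_one
  rw [Nat.card_eq_fintype_card, hcN, Nat.card_coe_set_eq] at h1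
  obtain ⟨SV, hSV⟩ : ∃ SV : Finset V, SV = univ.filter (fun v =>
    X.τ v ∈ univ.filter fun t => lab t = none) := ⟨_, rfl⟩
  have hSc : (SV : Set V).ncard = 3 * s := by rw [Set.ncard_coe_finset, hSV, X.card_filter, hs]
  have hSm : ∀ v, v ∈ (SV : Set V) ↔ lab (X.τ v) = none := fun v => by simp [hSV]
  have hone : ∀ v, ρ (X.τ v) ≠ ρ (X.τ (X.σ v)) →
      lab (X.τ v) = none ∨ lab (X.τ (X.σ v)) = none := fun v hv => by
    cases h : lab (X.τ v) with
    | none => exact Or.inl rfl
    | some i =>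
      cases h' : lab (X.τ (X.σ v)) with
      | none => exact Or.inr rfl
      | some j => exact absurd (by rw [r2 _ _ h, r2 _ _ h', hsep v i j h h']) hv
  have hsub : (X.quo ρ).edgeSet ⊆ (fun v => s(ρ (X.τ v), ρ (X.τ (X.σ v)))) '' SV := by
    intro e he
    induction e using Sym2.ind with
    | _ x y =>
      obtain ⟨hxy, v, rfl, rfl⟩ := he
      rcases hone v hxy with h | h
      · exact ⟨v, (hSm v).2 h, rfl⟩
      · exact ⟨X.σ v, (hSm _).2 h, by simp only [X.inv]; exact Sym2.eq_swap⟩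
  have h2 := Set.ncard_le_ncard hsub (Set.toFinite _)
  have h3 : ((fun v => s(ρ (X.τ v), ρ (X.τ (X.σ v)))) '' SV).ncard ≤ (SV : Set V).ncard :=
    Set.ncard_image_le (Set.toFinite _)
  have hinj : Set.InjOn (fun v => s(ρ (X.τ v), ρ (X.τ (X.σ v)))) SV :=
    Set.injOn_of_ncard_image_eq (by omega) (Set.toFinite _)
  have hE : (X.quo ρ).edgeSet.ncard = 3 * s := by omega
  have hSS : ∀ v, lab (X.τ v) = none → lab (X.τ (X.σ v)) ≠ none := fun v k1 k2 =>
    X.σ_ne v (hinj ((hSm _).2 k2) ((hSm _).2 k1) (by simp only [X.inv]; exact Sym2.eq_swap))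
  have hu : ∀ u v, ρ (X.τ u) = ρ (X.τ v) → ρ (X.τ (X.σ u)) = ρ (X.τ (X.σ v)) →
      ρ (X.τ u) ≠ ρ (X.τ (X.σ u)) → u = v := fun u v k1 k2 k3 => by
    have tr : ∀ t t', ρ t = ρ t' → lab t = none → lab t' = none := fun t t' k h => by
      rw [r1 t h] at k
      rw [(rl t' _).1 k.symm]
      exact h
    rcases hone u k3 with h | h
    · exact hinj ((hSm _).2 h) ((hSm _).2 (tr _ _ k1 h)) (by simp only [k1, k2])
    · exact X.σ_inj (hinj ((hSm _).2 h) ((hSm _).2 (tr _ _ k2 h)) (by simp only [X.inv, k1, k2]))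
  have hcol : ∀ x y, (X.quo ρ).Adj x y → x.isRight ≠ y.isRight := by
    rintro x y ⟨hxy, v, rfl, rfl⟩
    cases h : lab (X.τ v) with
    | none =>
      cases h' : lab (X.τ (X.σ v)) with
      | none => exact absurd h' (hSS v h)
      | some j => rw [r1 _ h, r2 _ _ h']; simp
    | some i =>
      have h' := (hone v hxy).resolve_left (by rw [h]; simp)
      rw [r2 _ _ h, r1 _ h']; simp
  have hdeg := X.quo_degree ρ hu
  -- the sum over the classes
  have hA : ∀ j, univ.filter (fun t => ρ t = Sum.inr j) = univ.filter fun t => lab t = some j :=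
    fun j => filter_congr fun t _ => rr t j
  have k4 : ∀ j ∈ (univ : Finset ι), 4 ≤ (univ.filter fun t => lab t = some j).card +
      (X.quo ρ).degree (Sum.inr j) := fun j _ => by
    rw [hdeg, hA]
    exact X.loc4 _ (hodd j)
  have k5 : Fintype.card T = s + ∑ j, (univ.filter fun t => lab t = some j).card := by
    rw [hs, ← card_univ, card_eq_sum_card_fiberwise (f := lab) (t := univ) (by simp),
      Fintype.sum_option]
  have k6 : ∑ j, (X.quo ρ).degree (Sum.inr j) = 3 * s := by
    have := bip_sum (X.quo ρ) (c := Sum.isRight) hcol true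
    rw [sum_filter, Fintype.sum_sum_type, ← Set.ncard_coe_finset, SimpleGraph.coe_edgeFinset,
      hE] at this
    simpa using this
  have k7 := (sum_eq_sum_iff_of_le k4).1 (by
    rw [sum_add_distrib, k6, sum_const, card_univ, smul_eq_mul]
    omega)
  refine ⟨_, X.quo ρ, fun v => ρ (X.τ v), Sum.isRight,
    SimpleGraph.isTree_iff_connected_and_card.2 ⟨hK, ?_⟩, hcol, ?_, ?_, ?_⟩
  · rw [Nat.card_coe_set_eq, hE, Nat.card_eq_fintype_card, hcN]
  · rintro (x | j)
    · have e1 : univ.filter (fun t => ρ t = Sum.inl x) = {x.1} := by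
        ext t
        rw [mem_filter, rl, mem_singleton]
        exact and_iff_right (mem_univ _)
      refine Or.inl ⟨?_, by rw [X.fibre, e1, card_singleton]⟩
      rw [ncard_nb, hdeg, e1, ← X.fib x.1]
      congr 1
      refine filter_congr fun v _ => ?_
      rw [mem_singleton, mem_singleton]
      exact and_iff_left_of_imp fun h => h ▸ X.ne v
    · have e1 := k7 j (mem_univ _)
      obtain ⟨b, hb⟩ := hodd j
      rw [ncard_nb, X.fibre, hA]
      by_cases h : b = 0
      · exact Or.inl ⟨by omega, by omega⟩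
      · exact Or.inr ⟨by omega, by omega, rfl⟩
  · rintro u v (h | h)
    · exact Or.inl (congrArg ρ h.2)
    · exact or_iff_not_imp_left.2 fun k => ⟨k, u, rfl, by rw [h]⟩
  · rintro x y ⟨hxy, v, rfl, rfl⟩
    refine ⟨(v, X.σ v), ⟨Or.inr rfl, rfl, rfl⟩, ?_⟩
    rintro ⟨u, w⟩ ⟨h | h, k1, k2⟩
    · exact absurd (k1.symm.trans ((congrArg ρ h.2).trans k2)) hxy
    · change w = X.σ u at h
      subst h
      have : u = v := hu u v k1 k2 fun k => hxy (k1.symm.trans (k.trans k2))
      rw [this]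

end Pool.Agent.Lib.MP_e52bc6_co
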