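import Pool.Agent.Lib.MP_e52bc6_co.FX.TB

/-! Matchings of the contracted multigraph as induced matchings without triangle edges. -/

open Finset

namespace Pool.Agent.Lib.MP_e52bc6_co

variable {V T : Type} [Fintype V] [DecidableEq T]

theorem matching_card {G : SimpleGraph V} {M : G.Subgraph} (h : M.IsMatching) :
    M.verts.ncard = 2 * M.edgeSet.ncard := by
  classical
  have h1 := M.spanningCoe.sum_degrees_eq_twice_card_edges
  have h2 : ∀ v, M.spanningCoe.degree v = if v ∈ M.verts then 1 else 0 := fun v => by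
    split_ifs with hv
    · exact SimpleGraph.degree_eq_one_iff_existsUnique_adj.2 (h hv)
    · rw [SimpleGraph.degree_eq_zero_iff_notMem_support]
      rintro ⟨w, hw⟩
      exact hv (M.edge_vert hw)
  rw [sum_congr rfl fun v _ => h2 v, ← card_filter] at h1
  have h3 : M.verts = ↑(univ.filter fun v => v ∈ M.verts) := by ext v; simp
  have h4 : M.edgeSet = ↑M.spanningCoe.edgeFinset := by
    rw [SimpleGraph.coe_edgeFinset]
    rfl
  rw [h3, h4, Set.ncard_coe_finset, Set.ncard_coe_finset, h1]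

theorem Str.common (X : Str V T) {u v : V} (h : X.τ u = X.τ v) :
    ∃ w, X.graph.Adj u w ∧ X.graph.Adj v w := by
  classical
  obtain ⟨w, hw, hw'⟩ := exists_mem_notMem_of_card_lt_card (s := ({u, v} : Finset V))
    (t := univ.filter fun w => X.τ w = X.τ u) (by rw [X.fib]; exact card_le_two.trans_lt (by decide))
  have h1 := (mem_filter.1 hw).2
  rw [mem_insert, mem_singleton, not_or] at hw'
  exact ⟨w, Or.inl ⟨fun e => hw'.1 e.symm, h1.symm⟩,
    Or.inl ⟨fun e => hw'.2 e.symm, (h1.trans h).symm⟩⟩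

theorem Str.sub_of_mt (X : Str V T) {P : Finset V} (hP : X.Mt P) :
    ∃ M : X.graph.Subgraph, M.IsMatching ∧ M.IsInduced ∧
      (∀ u v, M.Adj u v → ¬ ∃ w, X.graph.Adj u w ∧ X.graph.Adj v w) ∧
      2 * M.edgeSet.ncard = P.card := by
  have key : ∀ u v, ((⊤ : X.graph.Subgraph).induce (P : Set V)).Adj u v → v = X.σ u := by
    rintro u v ⟨hu, hv, h | h⟩
    · exact absurd (hP.2 u hu v hv h.2) h.1
    · exact h
  have hm : ((⊤ : X.graph.Subgraph).induce (P : Set V)).IsMatching := fun v hv =>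
    ⟨X.σ v, ⟨hv, hP.1 v hv, Or.inr rfl⟩, fun w hw => key v w hw⟩
  refine ⟨_, hm, fun u hu v hv h => ⟨hu, hv, h⟩, ?_, ?_⟩
  · rintro u v h ⟨w, h1, h2⟩
    have h3 := X.tri h.2.2 h1 h2
    rw [key u v h] at h3
    exact X.ne u h3.symm
  · rw [← matching_card hm]
    exact Set.ncard_coe_finset P

theorem Str.mt_of_sub (X : Str V T) {M : X.graph.Subgraph} (h1 : M.IsMatching) (h2 : M.IsInduced)
    (h3 : ∀ u v, M.Adj u v → ¬ ∃ w, X.graph.Adj u w ∧ X.graph.Adj v w) :
    ∃ P, X.Mt P ∧ P.card = 2 * M.edgeSet.ncard := by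
  classical
  refine ⟨univ.filter fun v => v ∈ M.verts, ⟨fun v hv => ?_, fun u hu v hv h => ?_⟩, ?_⟩
  · obtain ⟨w, hw, -⟩ := h1 (mem_filter.1 hv).2
    rcases M.adj_sub hw with h | h
    · exact absurd (X.common h.2) (h3 v w hw)
    · exact mem_filter.2 ⟨mem_univ _, h ▸ M.edge_vert hw.symm⟩
  · by_contra hne
    exact h3 u v (h2 (mem_filter.1 hu).2 (mem_filter.1 hv).2 (Or.inl ⟨hne, h⟩)) (X.common h)
  · rw [← matching_card h1, ← Set.ncard_coe_finset]
    congr 1
    ext v
    simp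

end Pool.Agent.Lib.MP_e52bc6_co
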