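import Pool.Agent.Lib.MP_e52bc6_co.Struct

/-! The formula of Tutte and Berge for the contracted multigraph and total domination. -/

open Finset

namespace Pool.Agent.Lib.MP_e52bc6_co

variable {V T : Type} [Fintype V] [DecidableEq T]

/-- a matching of the contracted multigraph, as the set of the ends of its edges -/
def Str.Mt (X : Str V T) (P : Finset V) : Prop :=
  (∀ v ∈ P, X.σ v ∈ P) ∧ ∀ u ∈ P, ∀ v ∈ P, X.τ u = X.τ v → u = v

/-- a barrier with excess at least `e` -/
def Str.TB [Fintype T] (X : Str V T) (e : ℕ) : Prop :=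
  ∃ (ι : Type) (_ : Fintype ι) (_ : DecidableEq ι) (lab : T → Option ι),
    (∀ j, Odd (univ.filter (fun t => lab t = some j)).card) ∧
    (∀ v i j, lab (X.τ v) = some i → lab (X.τ (X.σ v)) = some j → i = j) ∧
    (univ.filter (fun t => lab t = none)).card + e ≤ Fintype.card ι

theorem Str.dom_of_mt [Fintype T] (X : Str V T) {P : Finset V} (hP : X.Mt P) :
    ∃ D : Finset V, D.card + P.card ≤ 2 * Fintype.card T ∧ ∀ v, ∃ u ∈ D, X.graph.Adj v u := by
  classical
  have hpair : ∀ t, ∃ a b, a ≠ b ∧ X.τ a = t ∧ X.τ b = t := by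
    intro t
    obtain ⟨a, ha, b, hb, hab⟩ := one_lt_card.mp
      (by rw [X.fib t]; norm_num : 1 < (univ.filter (fun v => X.τ v = t)).card)
    exact ⟨a, b, hab, (mem_filter.mp ha).2, (mem_filter.mp hb).2⟩
  choose a b hab ha hb using hpair
  have h1 : (P.image X.τ).card = P.card := card_image_of_injOn fun u hu v hv h => hP.2 u hu v hv h
  have h2 := card_add_card_compl (P.image X.τ)
  refine ⟨P ∪ ((P.image X.τ)ᶜ.image a ∪ (P.image X.τ)ᶜ.image b), ?_, fun v => ?_⟩
  · have h3 := card_union_le P ((P.image X.τ)ᶜ.image a ∪ (P.image X.τ)ᶜ.image b)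
    have h4 := card_union_le ((P.image X.τ)ᶜ.image a) ((P.image X.τ)ᶜ.image b)
    have h5 : ((P.image X.τ)ᶜ.image a).card ≤ _ := card_image_le
    have h6 : ((P.image X.τ)ᶜ.image b).card ≤ _ := card_image_le
    omega
  · by_cases h : X.τ v ∈ P.image X.τ
    · obtain ⟨p, hp, hpv⟩ := mem_image.1 h
      by_cases e : v = p
      · exact ⟨X.σ v, mem_union_left _ (hP.1 v (e ▸ hp)), Or.inr rfl⟩
      · exact ⟨p, mem_union_left _ hp, Or.inl ⟨e, hpv.symm⟩⟩
    · have h' := mem_compl.2 h
      by_cases e : v = a (X.τ v)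
      · exact ⟨b (X.τ v), mem_union_right _ (mem_union_right _ (mem_image_of_mem _ h')),
          Or.inl ⟨fun e' => hab _ (e.symm.trans e'), (hb _).symm⟩⟩
      · exact ⟨a (X.τ v), mem_union_right _ (mem_union_left _ (mem_image_of_mem _ h')),
          Or.inl ⟨e, (ha _).symm⟩⟩

theorem Str.mt_of_aux [Fintype T] (X : Str V T) {d : ℕ} {M : (X.aux d).Subgraph}
    (hM : M.IsPerfectMatching) : ∃ P, X.Mt P ∧ Fintype.card T ≤ P.card + d := by
  classical
  have hex : ∀ x, ∃! y, M.Adj x y := SimpleGraph.Subgraph.isPerfectMatching_iff.mp hM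
  choose m hm hmu using hex
  have hmm : ∀ x, m (m x) = x := fun x => (hmu (m x) x (hm x).symm).symm
  let rk := Fintype.equivFin T
  have hedge : ∀ t t', ∃ v, m (Sum.inl t) = Sum.inl t' → X.τ v = t ∧ X.τ (X.σ v) = t' := by
    intro t t'
    by_cases h : m (Sum.inl t) = Sum.inl t'
    · obtain ⟨v, hv⟩ := (M.adj_sub (hm (Sum.inl t))).2 t t' rfl h
      exact ⟨v, fun _ => hv⟩
    · obtain ⟨v, -⟩ := X.surj t
      exact ⟨v, fun h' => absurd h' h⟩
  choose e he using hedge
  obtain ⟨f, hf⟩ : ∃ f : T → T → V, ∀ t t', f t t' = if rk t < rk t' then e t t' else X.σ (e t' t) :=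
    ⟨_, fun _ _ => rfl⟩
  have hsym : ∀ t t', m (Sum.inl t) = Sum.inl t' → m (Sum.inl t') = Sum.inl t := fun t t' h => by
    rw [← h, hmm]
  have hτ : ∀ t t', m (Sum.inl t) = Sum.inl t' → X.τ (f t t') = t := fun t t' h => by
    rw [hf]
    split_ifs
    · exact (he _ _ h).1
    · exact (he _ _ (hsym _ _ h)).2
  have hσ : ∀ t t', m (Sum.inl t) = Sum.inl t' → X.σ (f t t') = f t' t := fun t t' h => by
    have hne : t ≠ t' := fun e' => (M.adj_sub (hm (Sum.inl t))).1 (by rw [h, e'])
    rw [hf, hf]
    rcases lt_trichotomy (rk t) (rk t') with h2 | h2 | h2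
    · rw [if_pos h2, if_neg (lt_asymm h2)]
    · exact absurd (rk.injective h2) hne
    · rw [if_neg (lt_asymm h2), if_pos h2, X.inv]
  obtain ⟨P, hP⟩ : ∃ P : Finset V, ∀ v, v ∈ P ↔ ∃ t t', m (Sum.inl t) = Sum.inl t' ∧ v = f t t' :=
    ⟨univ.filter fun v => ∃ t t', m (Sum.inl t) = Sum.inl t' ∧ v = f t t', fun v => by simp⟩
  refine ⟨P, ⟨fun v hv => ?_, fun u hu v hv h => ?_⟩, ?_⟩
  · obtain ⟨t, t', h, rfl⟩ := (hP v).1 hv
    exact (hP _).2 ⟨t', t, hsym _ _ h, hσ _ _ h⟩
  · obtain ⟨t, t', h1, rfl⟩ := (hP u).1 hu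
    obtain ⟨s, s', h2, rfl⟩ := (hP v).1 hv
    rw [hτ _ _ h1, hτ _ _ h2] at h
    subst h
    rw [Sum.inl_injective (h1.symm.trans h2)]
  · have h2 := card_add_card_compl (P.image X.τ)
    have h3 : (P.image X.τ).card ≤ P.card := card_image_le
    have h4 : (P.image X.τ)ᶜ.card ≤ ((univ : Finset (Fin d)).image (Sum.inr (α := T))).card := by
      refine card_le_card_of_injOn (fun t => m (Sum.inl t)) (fun t ht => ?_) fun t _ s _ h => ?_
      · cases h : m (Sum.inl t) with
        | inl t' =>
          exact absurd (mem_image.2 ⟨f t t', (hP _).2 ⟨t, t', h, rfl⟩, hτ _ _ h⟩) (mem_compl.1 ht)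
        | inr j => exact mem_coe.2 (mem_image.2 ⟨j, mem_univ _, h.symm⟩)
      · have h' : m (m (Sum.inl t)) = m (m (Sum.inl s)) := congrArg m h
        rw [hmm, hmm] at h'
        exact Sum.inl_injective h'
    have h5 : ((univ : Finset (Fin d)).image (Sum.inr (α := T))).card ≤ d :=
      card_image_le.trans (by simp)
    omega

/-- even classes can be merged into an odd class -/
theorem Str.tb_of_lab [Fintype T] (X : Str V T) {κ : Type} [Fintype κ] [DecidableEq κ]
    (lab : T → Option κ)
    (hsep : ∀ v i j, lab (X.τ v) = some i → lab (X.τ (X.σ v)) = some j → i = j) {e : ℕ}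
    (he : 0 < e) (h : (univ.filter (fun t => lab t = none)).card + e ≤
      (univ.filter (fun j => Odd (univ.filter (fun t => lab t = some j)).card)).card) :
    X.TB e := by
  classical
  obtain ⟨J, hJ⟩ : ∃ J : Finset κ,
    J = univ.filter (fun j => Odd (univ.filter (fun t => lab t = some j)).card) := ⟨_, rfl⟩
  rw [← hJ] at h
  have hJm : ∀ j, j ∈ J ↔ Odd (univ.filter (fun t => lab t = some j)).card := fun j => by simp [hJ]
  obtain ⟨j0, hj0⟩ : J.Nonempty := card_pos.1 (by omega)
  obtain ⟨φ, hφ⟩ : ∃ φ : κ → J, ∀ j (hj : j ∈ J), φ j = ⟨j, hj⟩ :=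
    ⟨fun j => if hj : j ∈ J then ⟨j, hj⟩ else ⟨j0, hj0⟩, fun j hj => dif_pos hj⟩
  refine ⟨J, inferInstance, inferInstance, fun t => (lab t).map φ, fun i => ?_, ?_, ?_⟩
  · have e1 : univ.filter (fun t => (lab t).map φ = some i) =
        (univ.filter fun j => φ j = i).biUnion fun j => univ.filter fun t => lab t = some j := by
      ext t
      simp only [mem_filter, mem_univ, true_and, mem_biUnion, Option.map_eq_some_iff]
      exact exists_congr fun j => and_comm
    rw [e1, card_biUnion, Finset.odd_sum_iff_odd_card_odd]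
    · have e2 : (univ.filter fun j => φ j = i).filter
          (fun j => Odd (univ.filter fun t => lab t = some j).card) = {i.1} := by
        ext j
        rw [mem_filter, ← hJm, mem_filter, mem_singleton]
        constructor
        · rintro ⟨⟨-, h1⟩, h2⟩
          rw [← h1, hφ j h2]
        · rintro rfl
          exact ⟨⟨mem_univ _, hφ _ i.2⟩, i.2⟩
      rw [e2, card_singleton]
      exact odd_one
    · intro a _ b _ hab
      rw [Function.onFun, disjoint_left]
      intro t h1 h2
      exact hab (Option.some_injective _ ((mem_filter.1 h1).2.symm.trans (mem_filter.1 h2).2))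
  · intro v i j h1 h2
    obtain ⟨i', h3, rfl⟩ := Option.map_eq_some_iff.1 h1
    obtain ⟨j', h4, rfl⟩ := Option.map_eq_some_iff.1 h2
    rw [hsep v i' j' h3 h4]
  · simpa only [Option.map_eq_none_iff, Fintype.card_coe] using h

theorem Str.dich [Fintype T] (X : Str V T) (k : ℕ) :
    (∃ M : (X.aux (2 * k)).Subgraph, M.IsPerfectMatching) ∨ X.TB (2 * k + 2) := by
  classical
  refine or_iff_not_imp_right.2 fun hno => ?_
  generalize hd : 2 * k = d at hno ⊢
  rw [SimpleGraph.tutte]
  intro U hU
  unfold SimpleGraph.IsTutteViolator at hU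
  set Y := ((⊤ : (X.aux d).Subgraph).deleteVerts U).coe with hY
  have hYadj : ∀ a b, Y.Adj a b ↔ (X.aux d).Adj a.1 b.1 := by
    intro a b
    have ha := a.2
    have hb := b.2
    simp only [SimpleGraph.Subgraph.deleteVerts_verts, SimpleGraph.Subgraph.verts_top,
      Set.mem_sdiff, Set.mem_univ, true_and] at ha hb
    simp [hY, ha, hb]
  have hmem : ∀ x, x ∈ ((⊤ : (X.aux d).Subgraph).deleteVerts U).verts ↔ x ∉ U := by
    intro x; simp
  have hpar := Y.odd_ncard_oddComponents
  have hcardW : Nat.card ((⊤ : (X.aux d).Subgraph).deleteVerts U).verts + U.ncard =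
      Fintype.card T + d := by
    rw [Nat.card_coe_set_eq]
    have : ((⊤ : (X.aux d).Subgraph).deleteVerts U).verts = Uᶜ := by ext x; simp
    rw [this, add_comm, Set.ncard_add_ncard_compl]
    simp
  obtain ⟨N2, hN2⟩ := X.even_card
  by_cases hall : ∀ j, Sum.inr j ∈ U
  · let lab : T → Option Y.ConnectedComponent := fun t =>
      if h : Sum.inl t ∈ U then none else some (Y.connectedComponentMk ⟨Sum.inl t, (hmem _).mpr h⟩)
    have hsep : ∀ v i j, lab (X.τ v) = some i → lab (X.τ (X.σ v)) = some j → i = j := by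
      intro v i j h1 h2
      simp only [lab] at h1 h2
      split_ifs at h1 h2 with e1 e2
      rw [← Option.some_injective _ h1, ← Option.some_injective _ h2]
      apply SimpleGraph.ConnectedComponent.connectedComponentMk_eq_of_adj
      rw [hYadj]
      refine ⟨fun e => X.ne v (Sum.inl_injective e).symm, ?_⟩
      intro t t' e e'
      exact ⟨v, Sum.inl_injective e, Sum.inl_injective e'⟩
    have hq : (univ.filter (fun j => Odd (univ.filter (fun t => lab t = some j)).card)).card =
        Y.oddComponents.ncard := by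
      rw [← Set.ncard_coe_finset]
      congr 1
      ext C
      simp only [coe_filter, mem_univ, true_and, Set.mem_ofPred_eq]
      have : (univ.filter (fun t => lab t = some C)).card = C.supp.ncard := by
        rw [← Set.ncard_coe_finset, ← Set.ncard_image_of_injective _ (Sum.inl_injective (β := Fin d)),
          ← Set.ncard_image_of_injective C.supp Subtype.val_injective]
        congr 1
        ext x
        constructor
        · rintro ⟨t, ht, rfl⟩
          simp only [coe_filter, mem_univ, true_and, Set.mem_ofPred_eq, lab] at ht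
          split_ifs at ht with e
          exact ⟨⟨Sum.inl t, (hmem _).mpr e⟩, Option.some_injective _ ht, rfl⟩
        · rintro ⟨⟨x, hx⟩, hC, rfl⟩
          rcases x with t | j
          · refine ⟨t, ?_, rfl⟩
            simp only [coe_filter, mem_univ, true_and, Set.mem_ofPred_eq, lab]
            rw [dif_neg ((hmem _).mp hx)]
            exact congrArg some hC
          · exact absurd (hall j) ((hmem _).mp hx)
      rw [this]
    have hs : U.ncard = (univ.filter (fun t => lab t = none)).card + d := by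
      have : U = ↑((univ.filter (fun t => lab t = none)).disjSum (univ : Finset (Fin d))) := by
        ext x
        rcases x with t | j
        · simp [lab]
        · simp [hall j]
      refine (congrArg Set.ncard this).trans ?_
      rw [Set.ncard_coe_finset, card_disjSum]
      simp
    refine hno (X.tb_of_lab lab hsep (by omega) ?_)
    rw [hq]
    rw [Nat.odd_iff, Nat.odd_iff] at hpar
    omega
  · push Not at hall
    obtain ⟨j, hj⟩ := hall
    have hpre : Y.Preconnected := by
      have key : ∀ a, Y.Reachable ⟨Sum.inr j, (hmem _).mpr hj⟩ a := by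
        intro a
        by_cases e : (⟨Sum.inr j, (hmem _).mpr hj⟩ :
          ((⊤ : (X.aux d).Subgraph).deleteVerts U).verts) = a
        · rw [e]
        · apply SimpleGraph.Adj.reachable
          rw [hYadj]
          exact ⟨fun h => e (Subtype.ext h), fun t t' h => by cases h⟩
      exact fun a b => (key a).symm.trans (key b)
    have hsub := hpre.subsingleton_connectedComponent
    have hle : Y.oddComponents.ncard ≤ 1 :=
      (Set.ncard_le_one (Set.toFinite _)).mpr (fun a _ b _ => Subsingleton.elim a b)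
    rw [Nat.odd_iff, Nat.odd_iff] at hpar
    omega

theorem Str.third [Fintype T] (X : Str V T) (D : Finset V) (hD : ∀ v, ∃ u ∈ D, X.graph.Adj v u) :
    Fintype.card T ≤ D.card := by
  classical
  have h1 : (univ : Finset V) ⊆ D.biUnion fun d => univ.filter fun u => X.graph.Adj d u :=
    fun v _ => by
      obtain ⟨u, hu, h⟩ := hD v
      exact mem_biUnion.2 ⟨u, hu, mem_filter.2 ⟨mem_univ _, h.symm⟩⟩
  have h2 := (card_le_card h1).trans (card_biUnion_le_card_mul D _ 3 fun d _ => by
    rw [← X.ncard_neighborSet d, ← Set.ncard_coe_finset]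
    exact Set.ncard_le_ncard (fun u hu => (mem_filter.1 hu).2) (Set.toFinite _))
  rw [card_univ, X.card_eq] at h2
  omega

theorem Str.TB.lower [Fintype T] {X : Str V T} {e : ℕ} (h : X.TB e) (D : Finset V)
    (hD : ∀ v, ∃ u ∈ D, X.graph.Adj v u) : Fintype.card T + e ≤ D.card := by
  classical
  obtain ⟨ι, _, _, lab, h1, h2, h3⟩ := h
  have := X.lower lab h1 h2 D hD
  omega

/-- the deficiency `2 k` of the contracted multigraph -/
theorem Str.key [Fintype T] (X : Str V T) (hc : X.Conn) : ∃ (k : ℕ) (P : Finset V), X.Mt P ∧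
    Fintype.card T ≤ P.card + 2 * k ∧ (k = 0 ∨ X.TB (2 * k)) ∧
    ∀ D : Finset V, (∀ v, ∃ u ∈ D, X.graph.Adj v u) → Fintype.card T + 2 * k ≤ D.card := by
  classical
  have hex : ∃ k, ∃ M : (X.aux (2 * k)).Subgraph, M.IsPerfectMatching := ⟨_, X.aux_matching hc⟩
  obtain ⟨M, hM⟩ := Nat.find_spec hex
  obtain ⟨P, hP, hP'⟩ := X.mt_of_aux hM
  have h : Nat.find hex = 0 ∨ X.TB (2 * Nat.find hex) := by
    rcases Nat.eq_zero_or_eq_succ_pred (Nat.find hex) with h | h
    · exact Or.inl h
    · refine Or.inr ?_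
      have h1 := (X.dich (Nat.find hex).pred).resolve_left (Nat.find_min hex (by omega))
      rwa [show 2 * (Nat.find hex).pred + 2 = 2 * Nat.find hex by omega] at h1
  refine ⟨_, P, hP, hP', h, fun D hD => ?_⟩
  rcases h with h | h
  · rw [h]
    exact X.third D hD
  · exact h.lower D hD

end Pool.Agent.Lib.MP_e52bc6_co
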